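import Mathlib.CategoryTheory.Idempotents.Basic
import Mathlib.CategoryTheory.Triangulated.TStructure.TruncLEGT
import Mathlib.Algebra.Homology.DerivedCategory.TStructure
import Mathlib.Algebra.Homology.DerivedCategory.FullyFaithful
import Mathlib.Tactic.NoncommRing

/-!
# Idempotents of bounded objects split

In a pretriangulated category with a t-structure whose (shifted) heart has split idempotents,
every idempotent endomorphism of a bounded object splits. No telescopes, no coproducts.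
In particular every idempotent of a cohomologically bounded object of the derived category
of an abelian category splits.
-/

open CategoryTheory CategoryTheory.Limits CategoryTheory.Pretriangulated
  CategoryTheory.Triangulated CategoryTheory.Preadditive

namespace Orl.Idem

universe w v u

/-- The endomorphism `e` splits. -/
def Splits {C : Type u} [Category.{v} C] {X : C} (e : X ⟶ X) : Prop :=
  ∃ (Y : C) (i : Y ⟶ X) (p : X ⟶ Y), i ≫ p = 𝟙 Y ∧ p ≫ i = e

lemma Splits.idem {C : Type u} [Category.{v} C] {X : C} {e : X ⟶ X} (h : Splits e) :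
    e ≫ e = e := by
  obtain ⟨Y, i, p, h1, rfl⟩ := h
  simp [reassoc_of% h1]

/-- Splittings are transported by functors. -/
lemma Splits.map {C : Type u} [Category.{v} C] {D : Type*} [Category* D] (F : C ⥤ D) {X : C}
    {e : X ⟶ X} (h : Splits e) : Splits (F.map e) := by
  obtain ⟨Y, i, p, h1, rfl⟩ := h
  exact ⟨F.obj Y, F.map i, F.map p, by rw [← F.map_comp, h1, F.map_id], by rw [F.map_comp]⟩

/-- Splittings are transported by isomorphisms. -/
lemma Splits.of_iso {C : Type u} [Category.{v} C] {X X' : C} (a : X ≅ X') {e : X ⟶ X}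
    {e' : X' ⟶ X'} (h : Splits e) (he : e ≫ a.hom = a.hom ≫ e') : Splits e' := by
  obtain ⟨Y, i, p, h1, rfl⟩ := h
  refine ⟨Y, i ≫ a.hom, a.inv ≫ p, by simp [h1], ?_⟩
  rw [← cancel_epi a.hom, ← he]
  simp

section Ring

variable {R : Type*} [Ring R] {e p : R}

lemma unit_aux (he : e * e = e) (hp : p * p = p) (h : (e - p) * (e - p) = 0) :
    ((1 - p) * (1 - e) + p * e) * ((1 - e) * (1 - p) + e * p) = 1 := by
  have h' : e - e * p - p * e + p = 0 := by
    have : (e - p) * (e - p) = e * e - e * p - p * e + p * p := by noncomm_ring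
    rw [this, he, hp] at h
    exact h
  have h1 : (1 - e) * (1 - e) = 1 - e := by
    have : (1 - e) * (1 - e) = 1 - e - e + e * e := by noncomm_ring
    rw [this, he]
    abel
  have h2 : (1 - e) * e = 0 := by
    rw [sub_mul, one_mul, he, sub_self]
  have h3 : e * (1 - e) = 0 := by
    rw [mul_sub, mul_one, he, sub_self]
  calc ((1 - p) * (1 - e) + p * e) * ((1 - e) * (1 - p) + e * p)
      = (1 - p) * ((1 - e) * (1 - e)) * (1 - p) + (1 - p) * ((1 - e) * e) * p
          + p * (e * (1 - e)) * (1 - p) + p * (e * e) * p := by noncomm_ring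
    _ = (1 - p) * (1 - e) * (1 - p) + p * e * p := by
        rw [h1, h2, h3, he]; simp
    _ = (1 - p) * (1 - p) - (1 - p) * e * (1 - p) + p * e * p := by noncomm_ring
    _ = 1 - (e - e * p - p * e + p) - p + p * p := by noncomm_ring
    _ = 1 := by rw [h', hp]; abel

lemma intertwine_aux (he : e * e = e) (hp : p * p = p) :
    p * ((1 - p) * (1 - e) + p * e) = ((1 - p) * (1 - e) + p * e) * e := by
  have h1 : p * ((1 - p) * (1 - e) + p * e) = (p - p * p) * (1 - e) + p * p * e := by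
    noncomm_ring
  have h2 : ((1 - p) * (1 - e) + p * e) * e = (1 - p) * (e - e * e) + p * (e * e) := by
    noncomm_ring
  rw [h1, h2, he, hp]
  simp

end Ring

section Preadd

variable {C : Type u} [Category.{v} C] [Preadditive C]

/-- If `(e - p) ≫ (e - p) = 0` for two idempotents and `p` splits, then `e` splits. -/
lemma Splits.of_sq_zero {X : C} {e p : X ⟶ X} (he : e ≫ e = e)
    (h : (e - p) ≫ (e - p) = 0) (hs : Splits p) : Splits e := by
  have hp := hs.idem
  obtain ⟨Y, i, q, h1, h2⟩ := hs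
  let E : End X := e
  let P : End X := p
  have hE : E * E = E := he
  have hP : P * P = P := hp
  have hEP : (E - P) * (E - P) = 0 := h
  have hPE : (P - E) * (P - E) = 0 := by
    have : (P - E) * (P - E) = (E - P) * (E - P) := by noncomm_ring
    rw [this, hEP]
  let U : End X := (1 - P) * (1 - E) + P * E
  let V : End X := (1 - E) * (1 - P) + E * P
  have hUV : U * V = 1 := unit_aux hE hP hEP
  have hVU : V * U = 1 := unit_aux hP hE hPE
  have hPU : P * U = U * E := intertwine_aux hE hP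
  -- multiplication in `End X` is `f * g = g ≫ f`
  have hUV' : (V : X ⟶ X) ≫ (U : X ⟶ X) = 𝟙 X := hUV
  have hVU' : (U : X ⟶ X) ≫ (V : X ⟶ X) = 𝟙 X := hVU
  have hPU' : (U : X ⟶ X) ≫ p = e ≫ (U : X ⟶ X) := hPU
  refine ⟨Y, i ≫ (V : X ⟶ X), (U : X ⟶ X) ≫ q, ?_, ?_⟩
  · calc (i ≫ (V : X ⟶ X)) ≫ (U : X ⟶ X) ≫ q = i ≫ ((V : X ⟶ X) ≫ (U : X ⟶ X)) ≫ q := by
          simp only [Category.assoc]
      _ = 𝟙 Y := by rw [hUV', Category.id_comp, h1]
  · calc ((U : X ⟶ X) ≫ q) ≫ i ≫ (V : X ⟶ X) = (U : X ⟶ X) ≫ (q ≫ i) ≫ (V : X ⟶ X) := by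
          simp only [Category.assoc]
      _ = ((U : X ⟶ X) ≫ p) ≫ (V : X ⟶ X) := by rw [h2, Category.assoc]
      _ = e := by rw [hPU', Category.assoc, hVU', Category.comp_id]

end Preadd

section Triang

variable {C : Type u} [Category.{v} C] [Preadditive C] [HasZeroObject C] [HasShift C ℤ]
  [∀ n : ℤ, (shiftFunctor C n).Additive] [Pretriangulated C]

/-- Two out of three for splittings of idempotents in a distinguished triangle. -/
lemma splits_of_triangle {T : Triangle C} (hT : T ∈ distTriang C) (φ : T ⟶ T)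
    (h₁ : Splits φ.hom₁) (h₃ : Splits φ.hom₃) (h₂ : φ.hom₂ ≫ φ.hom₂ = φ.hom₂) :
    Splits φ.hom₂ := by
  obtain ⟨Y₁, i₁, p₁, a₁, b₁⟩ := h₁
  obtain ⟨Y₃, i₃, p₃, a₃, b₃⟩ := h₃
  have c₁ := φ.comm₁
  have c₂ := φ.comm₂
  have c₃ := φ.comm₃
  obtain ⟨Y₂, f, g, hT'⟩ := distinguished_cocone_triangle₂ (i₃ ≫ T.mor₃ ≫ p₁⟦(1 : ℤ)⟧')
  -- the two morphisms
  have e1 : (i₃ ≫ T.mor₃ ≫ p₁⟦(1 : ℤ)⟧') ≫ i₁⟦(1 : ℤ)⟧' = i₃ ≫ T.mor₃ := by
    rw [Category.assoc, Category.assoc, ← Functor.map_comp, b₁, c₃, ← b₃]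
    simp only [Category.assoc]
    rw [reassoc_of% a₃]
  have e2 : T.mor₃ ≫ p₁⟦(1 : ℤ)⟧' = p₃ ≫ i₃ ≫ T.mor₃ ≫ p₁⟦(1 : ℤ)⟧' := by
    rw [reassoc_of% b₃, ← reassoc_of% c₃, ← b₁, ← Functor.map_comp, Category.assoc, a₁,
      Category.comp_id]
  have k1 : ∃ i₂ : Y₂ ⟶ T.obj₂, f ≫ i₂ = i₁ ≫ T.mor₁ ∧ g ≫ i₃ = i₂ ≫ T.mor₂ :=
    complete_distinguished_triangle_morphism₂ _ _ hT' hT i₁ i₃ e1
  have k2 : ∃ q₂ : T.obj₂ ⟶ Y₂, T.mor₁ ≫ q₂ = p₁ ≫ f ∧ T.mor₂ ≫ p₃ = q₂ ≫ g :=
    complete_distinguished_triangle_morphism₂ _ _ hT hT' p₁ p₃ e2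
  obtain ⟨i₂, hi, hi'⟩ := k1
  obtain ⟨q₂, hq, hq'⟩ := k2
  have f1 : f ≫ i₂ ≫ q₂ = f := by
    rw [reassoc_of% hi, hq, reassoc_of% a₁]
  have f2 : (i₂ ≫ q₂) ≫ g = g := by
    rw [Category.assoc, ← hq', ← reassoc_of% hi', a₃, Category.comp_id]
  let ψ : Triangle.mk f g (i₃ ≫ T.mor₃ ≫ p₁⟦(1 : ℤ)⟧') ⟶
      Triangle.mk f g (i₃ ≫ T.mor₃ ≫ p₁⟦(1 : ℤ)⟧') :=
    { hom₁ := 𝟙 Y₁
      hom₂ := i₂ ≫ q₂
      hom₃ := 𝟙 Y₃
      comm₁ := by
        change f ≫ i₂ ≫ q₂ = 𝟙 Y₁ ≫ f
        rw [f1, Category.id_comp]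
      comm₂ := by
        change g ≫ 𝟙 Y₃ = (i₂ ≫ q₂) ≫ g
        rw [f2, Category.comp_id]
      comm₃ := by
        change (i₃ ≫ T.mor₃ ≫ p₁⟦(1 : ℤ)⟧') ≫ (shiftFunctor C (1 : ℤ)).map (𝟙 Y₁) =
          𝟙 Y₃ ≫ (i₃ ≫ T.mor₃ ≫ p₁⟦(1 : ℤ)⟧')
        rw [CategoryTheory.Functor.map_id, Category.comp_id, Category.id_comp] }
  have : IsIso (i₂ ≫ q₂) :=
    isIso₂_of_isIso₁₃ ψ hT' hT' (inferInstanceAs (IsIso (𝟙 Y₁))) (inferInstanceAs (IsIso (𝟙 Y₃)))
  let j := inv (i₂ ≫ q₂)
  have hj1 : f ≫ j = f := by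
    rw [← cancel_mono (i₂ ≫ q₂), Category.assoc, IsIso.inv_hom_id, Category.comp_id, f1]
  have hj2 : j ≫ g = g := by
    rw [← cancel_epi (i₂ ≫ q₂), IsIso.hom_inv_id_assoc, f2]
  refine Splits.of_sq_zero (p := (q₂ ≫ j) ≫ i₂) h₂ ?_ ⟨Y₂, i₂, q₂ ≫ j, ?_, rfl⟩
  · have z1 : T.mor₁ ≫ (φ.hom₂ - (q₂ ≫ j) ≫ i₂) = 0 := by
      rw [comp_sub, c₁, sub_eq_zero, ← b₁]
      simp only [Category.assoc]
      rw [reassoc_of% hq, reassoc_of% hj1, hi]
    have z2 : (φ.hom₂ - (q₂ ≫ j) ≫ i₂) ≫ T.mor₂ = 0 := by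
      rw [sub_comp, ← c₂, sub_eq_zero, ← b₃]
      simp only [Category.assoc]
      rw [← hi', reassoc_of% hj2, ← reassoc_of% hq']
    obtain ⟨r, hr⟩ := Triangle.yoneda_exact₂ T hT _ z1
    calc (φ.hom₂ - (q₂ ≫ j) ≫ i₂) ≫ (φ.hom₂ - (q₂ ≫ j) ≫ i₂)
        = (φ.hom₂ - (q₂ ≫ j) ≫ i₂) ≫ T.mor₂ ≫ r := by rw [← hr]
      _ = 0 := by rw [← Category.assoc, z2, zero_comp]
  · rw [← Category.assoc]
    exact IsIso.hom_inv_id _

/-- In a pretriangulated category with a t-structure whose shifted hearts have split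
idempotents, every idempotent endomorphism of a bounded object splits. -/
theorem splits_of_isGE_of_isLE [IsTriangulated C] (t : TStructure C)
    (hH : ∀ (n : ℤ) (X : C), t.IsGE X n → t.IsLE X n → ∀ e : X ⟶ X, e ≫ e = e → Splits e)
    (m : ℕ) : ∀ (a b : ℤ) (_ : b = a + m) (X : C) (_ : t.IsGE X a) (_ : t.IsLE X b)
      (e : X ⟶ X), e ≫ e = e → Splits e := by
  induction m with
  | zero =>
    intro a b hb X hX hX' e he
    obtain rfl : b = a := by simpa using hb
    exact hH b X hX hX' e he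
  | succ m ih =>
    intro a b hb X hX hX' e he
    have hT := t.triangleLEGT_distinguished a X
    have key := splits_of_triangle hT ((t.triangleLEGT a).map e) ?_ ?_ he
    · exact key
    · exact hH a _ (inferInstanceAs (t.IsGE ((t.truncLE a).obj X) a))
        (inferInstanceAs (t.IsLE ((t.truncLE a).obj X) a)) _ (by
          change (t.truncLE a).map e ≫ (t.truncLE a).map e = (t.truncLE a).map e
          rw [← Functor.map_comp, he])
    · exact ih (a + 1) b (by rw [hb]; push_cast; lia) _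
        (inferInstanceAs (t.IsGE ((t.truncGT a).obj X) (a + 1)))
        (inferInstanceAs (t.IsLE ((t.truncGT a).obj X) b)) _ (by
          change (t.truncGT a).map e ≫ (t.truncGT a).map e = (t.truncGT a).map e
          rw [← Functor.map_comp, he])

theorem splits_of_bounded [IsTriangulated C] (t : TStructure C)
    (hH : ∀ (n : ℤ) (X : C), t.IsGE X n → t.IsLE X n → ∀ e : X ⟶ X, e ≫ e = e → Splits e)
    {X : C} (hX : t.bounded X) (e : X ⟶ X) (he : e ≫ e = e) : Splits e := by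
  obtain ⟨⟨a, ha⟩, ⟨b, hb⟩⟩ := hX
  rcases le_total a b with h | h
  · obtain ⟨m, hm⟩ := Int.le.dest h
    exact splits_of_isGE_of_isLE t hH m a b hm.symm X ha hb e he
  · exact hH b X (t.isGE_of_ge X b a h) hb e he

end Triang

section Derived

variable {A : Type u} [Category.{v} A] [Abelian A] [HasDerivedCategory.{w} A]

open DerivedCategory

lemma splits_of_isGE_isLE_same (n : ℤ) (X : DerivedCategory A) (h₁ : X.IsGE n) (h₂ : X.IsLE n)
    (e : X ⟶ X) (he : e ≫ e = e) : Splits e := by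
  obtain ⟨Y, ⟨a⟩⟩ := exists_iso_singleFunctor_obj_of_isGE_of_isLE X n
  obtain ⟨f, hf⟩ := (singleFunctor A n).map_surjective (a.inv ≫ e ≫ a.hom)
  have hff : f ≫ f = f := by
    apply (singleFunctor A n).map_injective
    rw [Functor.map_comp, hf]
    simp [reassoc_of% he]
  have hs : Splits f := by
    obtain ⟨Z, i, p, h1, h2⟩ := IsIdempotentComplete.idempotents_split Y f hff
    exact ⟨Z, i, p, h1, h2⟩
  refine Splits.of_iso a.symm (hs.map (singleFunctor A n)) ?_
  rw [hf]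
  simp

/-- Every idempotent endomorphism of a cohomologically bounded object of the derived category
of an abelian category splits. -/
theorem splits_of_bounded_derived {X : DerivedCategory A} (hX : TStructure.t.bounded X)
    (e : X ⟶ X) (he : e ≫ e = e) : Splits e :=
  splits_of_bounded TStructure.t (fun n X h₁ h₂ e he => splits_of_isGE_isLE_same n X h₁ h₂ e he)
    hX e he

/-- A full subcategory of bounded objects closed under retracts is idempotent complete. -/
theorem isIdempotentComplete_fullSubcategory (P : ObjectProperty (DerivedCategory A))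
    (hP : P ≤ TStructure.t.bounded)
    (hr : ∀ {X Y : DerivedCategory A} (i : X ⟶ Y) (p : Y ⟶ X), i ≫ p = 𝟙 X → P Y → P X) :
    IsIdempotentComplete P.FullSubcategory := by
  refine ⟨fun X e he => ?_⟩
  obtain ⟨Y, i, p, h1, h2⟩ := splits_of_bounded_derived (hP _ X.property) e.hom
    (by rw [← ObjectProperty.FullSubcategory.comp_hom, he])
  exact ⟨⟨Y, hr i p h1 X.property⟩, ObjectProperty.homMk i, ObjectProperty.homMk p,
    by ext; exact h1, by ext; exact h2⟩

end Derived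

end Orl.Idem
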